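import Pool.Agent.K1H53.KD.Plan2

/-!
No confinement below the diffusive scale (for `Pool.Agent.K1H53.KD.S_zero`).
-/

open MeasureTheory ProbabilityTheory Set Filter TH967.DP
open scoped Topology
open Classical

set_option linter.unusedSectionVars false

namespace Pool.Agent.K1H31.KD

open Pool.Agent.K1H38.DP Pool.Agent.K1H53.KD

variable {d : ℕ} {Ω : Type*} [MeasurableSpace Ω] {P : Measure Ω} [IsProbabilityMeasure P]
  {w : ℕ → (Fin d → ℤ) → Ω → ℝ}

lemma measurable_wgt {n : ℕ} (β : ℝ) (h : Fin d → ℝ) (u : Fin n → Step d) :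
    Measurable (fun η : ℕ → (Fin d → ℤ) → ℝ => wgt β h η u) := by
  unfold wgt energy
  apply Real.measurable_exp.comp
  apply Measurable.const_add
  apply Measurable.const_mul
  apply Finset.measurable_sum
  intro i _
  exact (measurable_pi_apply _).comp (measurable_pi_apply _)

lemma measurable_frProb {n : ℕ} (β : ℝ) (h : Fin d → ℝ) (A : Set (Fin n → Step d)) :
    Measurable (fun η : ℕ → (Fin d → ℤ) → ℝ => frProb β h η A) := by
  unfold frProb
  refine Measurable.div ?_ (measurable_Zd β h n)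
  apply Finset.measurable_sum
  intro u _
  by_cases hu : u ∈ A
  · simp_rw [Set.indicator_of_mem hu]
    exact measurable_wgt β h u
  · simp_rw [Set.indicator_of_notMem hu]
    exact measurable_const

lemma frProb_nonneg {n : ℕ} [NeZero d] (β : ℝ) (h : Fin d → ℝ) (η : ℕ → (Fin d → ℤ) → ℝ)
    (A : Set (Fin n → Step d)) : 0 ≤ frProb β h η A := by
  unfold frProb
  refine div_nonneg ?_ (Zd_pos β h η n).le
  exact Finset.sum_nonneg fun u _ => Set.indicator_nonneg (fun w _ => (wgt_pos _ _ _ w).le) u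

lemma frProb_le_one {n : ℕ} [NeZero d] (β : ℝ) (h : Fin d → ℝ) (η : ℕ → (Fin d → ℤ) → ℝ)
    (A : Set (Fin n → Step d)) : frProb β h η A ≤ 1 := by
  have h1 := frProb_compl β h η A
  have h2 := frProb_nonneg β h η Aᶜ
  linarith

/-- the walks ending at `y` -/
lemma sum_end {n : ℕ} (β : ℝ) (h : Fin d → ℝ) (η : ℕ → (Fin d → ℤ) → ℝ) (y : Fin d → ℤ) :
    ∑ u : Fin n → Step d, (if pos u n = y then wgt β h η u else 0) =
      Zp β η n y * Real.exp (dot h y) := by
  unfold Zp
  rw [Finset.sum_mul]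
  apply Finset.sum_congr rfl
  intro u _
  split_ifs with hu
  · unfold wgt
    rw [hu, Real.exp_add, mul_comm]
  · rw [zero_mul]

/-- upper bound for the partition function when the walk is confined -/
lemma Zd_upper [NeZero d] (hZ : ZApi d) {β : ℝ} {h v : Fin d → ℝ} {η : ℕ → (Fin d → ℤ) → ℝ}
    {n : ℕ} {R M : ℝ} (hM : 0 ≤ M)
    (hy : ∀ y : Fin d → ℤ, reach n y → Real.sqrt (K1H53.KD.sq (disp v n y)) ≤ R →
      Zp β η n y * Real.exp (dot h y) ≤ M)
    (hf : 1 / 2 ≤ frProb β h η (tube n v R)) :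
    Zd β h η n ≤ 2 * ((2 * (n : ℝ) + 1) ^ d * M) := by
  have hpos := Zd_pos β h η n
  unfold frProb at hf
  rw [le_div_iff₀ hpos] at hf
  have key : ∑ u : Fin n → Step d, (tube n v R).indicator (wgt β h η) u ≤
      (2 * (n : ℝ) + 1) ^ d * M := by
    set box : Finset (Fin d → ℤ) := Finset.Icc (fun _ : Fin d => -(n : ℤ)) (fun _ => (n : ℤ))
      with hbox
    have hmem : ∀ u ∈ (Finset.univ : Finset (Fin n → Step d)), pos u n ∈ box := by
      intro u _
      rw [hbox, Finset.mem_Icc]
      constructor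
      · intro k
        exact (abs_le.1 (abs_pos_le u n k)).1
      · intro k
        exact (abs_le.1 (abs_pos_le u n k)).2
    rw [← Finset.sum_fiberwise_of_maps_to hmem]
    have hcard : (box.card : ℝ) = (2 * (n : ℝ) + 1) ^ d := by
      rw [hbox, Pi.card_Icc]
      simp only [Int.card_Icc, Finset.prod_const, Finset.card_univ, Fintype.card_fin]
      have : ((n : ℤ) + 1 - -(n : ℤ)).toNat = 2 * n + 1 := by omega
      rw [this]
      push_cast
      ring
    rw [← hcard, ← nsmul_eq_mul, ← Finset.sum_const]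
    apply Finset.sum_le_sum
    intro y _
    by_cases hex : ∃ u : Fin n → Step d, u ∈ tube n v R ∧ pos u n = y
    · obtain ⟨u, hu, huy⟩ := hex
      have h1 : ∑ u ∈ Finset.univ.filter (fun u : Fin n → Step d => pos u n = y),
          (tube n v R).indicator (wgt β h η) u ≤ Zp β η n y * Real.exp (dot h y) := by
        rw [← sum_end, Finset.sum_filter]
        apply Finset.sum_le_sum
        intro u _
        split_ifs
        · exact Set.indicator_le_self' (fun _ _ => (wgt_pos _ _ _ _).le) u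
        · exact le_rfl
      refine h1.trans (hy y ?_ ?_)
      · apply hZ.reach β η n y
        unfold Zp
        refine lt_of_lt_of_le (Real.exp_pos (β * energy η u)) ?_
        have := Finset.single_le_sum (f := fun u : Fin n → Step d =>
          if pos u n = y then Real.exp (β * energy η u) else 0) (s := Finset.univ)
          (fun u _ => by split_ifs <;> positivity) (Finset.mem_univ u)
        simp only [huy, if_true] at this
        exact this
      · have := hu n le_rfl
        rw [huy] at this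
        exact this
    · have : ∑ u ∈ Finset.univ.filter (fun u : Fin n → Step d => pos u n = y),
          (tube n v R).indicator (wgt β h η) u = 0 := by
        apply Finset.sum_eq_zero
        intro u hu
        rw [Finset.mem_filter] at hu
        apply Set.indicator_of_notMem
        intro hut
        exact hex ⟨u, hut, hu.2⟩
      rw [this]
      exact hM
  linarith

/-- lower bound for the mass outside the tube -/
lemma compl_lower [NeZero d] {β : ℝ} {h v : Fin d → ℝ} {η : ℕ → (Fin d → ℤ) → ℝ}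
    {n : ℕ} {R : ℝ} {z : Fin d → ℤ} (hz : R < Real.sqrt (K1H53.KD.sq (disp v n z))) :
    Zp β η n z * Real.exp (dot h z) / Zd β h η n ≤ 1 - frProb β h η (tube n v R) := by
  have h1 := frProb_compl β h η (tube n v R)
  have h2 : 1 - frProb β h η (tube n v R) = frProb β h η (tube n v R)ᶜ := by linarith
  rw [h2]
  unfold frProb
  apply div_le_div_of_nonneg_right _ (Zd_pos β h η n).le
  rw [← sum_end]
  apply Finset.sum_le_sum
  intro u _
  split_ifs with hu
  · rw [Set.indicator_of_mem]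
    intro hut
    have := hut n le_rfl
    rw [hu] at this
    exact absurd this (not_le.2 hz)
  · exact Set.indicator_nonneg (fun w _ => (wgt_pos _ _ _ w).le) u

/-- a lattice point at distance about `2 R` from `n v` with the right parity -/
lemma exists_z0 [NeZero d] (v : Fin d → ℝ) (n : ℕ) {R : ℝ} (hR : 1 ≤ R) (hRd : (d : ℝ) ≤ R ^ 2)
    (hn : (n : ℝ) * (∑ k, |v k|) + d + 2 * R + 1 ≤ n) :
    ∃ z : Fin d → ℤ, reach n z ∧ K1H53.KD.sq (disp v n z) ≤ (4 * R) ^ 2 ∧ R ^ 2 ≤ K1H53.KD.sq (disp v n z) := by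
  set t : Fin d → ℝ := fun k => n * v k + (if k = 0 then 2 * R else 0) with ht
  set y : Fin d → ℤ := fun k => ⌊t k⌋ with hy
  -- parity correction
  obtain ⟨e, he0, he1, hpar⟩ : ∃ e : ℤ, 0 ≤ e ∧ e ≤ 1 ∧ ((∑ k, y k) + e - n) % 2 = 0 := by
    rcases Int.emod_two_eq_zero_or_one ((∑ k, y k) - n) with h | h
    · exact ⟨0, le_rfl, by norm_num, by omega⟩
    · exact ⟨1, by norm_num, le_rfl, by omega⟩
  set z : Fin d → ℤ := fun k => y k + (if k = 0 then e else 0) with hz
  have hfl1 : ∀ k, (y k : ℝ) ≤ t k := fun k => Int.floor_le _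
  have hfl2 : ∀ k, t k < y k + 1 := fun k => Int.lt_floor_add_one _
  have heR0 : (0 : ℝ) ≤ e := by exact_mod_cast he0
  have heR1 : (e : ℝ) ≤ 1 := by exact_mod_cast he1
  have hd0 : ∀ k, k ≠ 0 → |disp v n z k| ≤ 1 := by
    intro k hk
    have h1 := hfl1 k
    have h2 := hfl2 k
    simp only [ht, if_neg hk] at h1 h2
    simp only [disp, hz, if_neg hk]
    push_cast
    rw [abs_le]
    constructor <;> linarith
  have hd1 : 2 * R - 1 ≤ disp v n z 0 ∧ disp v n z 0 ≤ 2 * R + 1 := by
    have h1 := hfl1 0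
    have h2 := hfl2 0
    simp only [ht, if_true] at h1 h2
    simp only [disp, hz, if_true]
    push_cast
    constructor <;> linarith
  have hsum : K1H53.KD.sq (disp v n z) ≤ (2 * R + 1) ^ 2 + d := by
    unfold K1H53.KD.sq
    rw [← Finset.add_sum_erase Finset.univ _ (Finset.mem_univ (0 : Fin d))]
    have h1 : disp v n z 0 ^ 2 ≤ (2 * R + 1) ^ 2 := by
      apply pow_le_pow_left₀ _ hd1.2
      linarith [hd1.1]
    have h2 : ∑ k ∈ Finset.univ.erase (0 : Fin d), disp v n z k ^ 2 ≤
        ∑ _k ∈ Finset.univ.erase (0 : Fin d), (1 : ℝ) := by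
      apply Finset.sum_le_sum
      intro k hk
      rw [← sq_abs]
      have := hd0 k (Finset.ne_of_mem_erase hk)
      have h0 := abs_nonneg (disp v n z k)
      nlinarith
    rw [Finset.sum_const, nsmul_eq_mul, mul_one] at h2
    have h3 : ((Finset.univ.erase (0 : Fin d)).card : ℝ) ≤ d := by
      have : (Finset.univ.erase (0 : Fin d)).card ≤ d := by
        refine (Finset.card_le_card (Finset.erase_subset _ _)).trans ?_
        simp
      exact_mod_cast this
    linarith
  refine ⟨z, ⟨?_, ?_⟩, ?_, ?_⟩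
  · have h1 : ((∑ k, |z k| : ℤ) : ℝ) ≤ (n : ℤ) := by
      push_cast
      have h2 : ∀ k, |(z k : ℝ)| ≤ n * |v k| + (1 + if k = 0 then 2 * R else 0) := by
        intro k
        have e1 : (z k : ℝ) = n * v k + disp v n z k := by simp only [disp]; ring
        rw [e1]
        refine (abs_add_le _ _).trans ?_
        rw [abs_mul, Nat.abs_cast]
        have h3 : |disp v n z k| ≤ 1 + if k = 0 then 2 * R else 0 := by
          by_cases hk : k = 0
          · subst hk
            rw [if_pos rfl, abs_of_nonneg (by linarith [hd1.1])]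
            linarith [hd1.2]
          · rw [if_neg hk, add_zero]
            exact hd0 k hk
        linarith
      refine (Finset.sum_le_sum fun k _ => h2 k).trans ?_
      rw [Finset.sum_add_distrib, ← Finset.mul_sum, Finset.sum_add_distrib]
      simp only [Finset.sum_const, Finset.card_univ, Fintype.card_fin, nsmul_eq_mul, mul_one,
        Finset.sum_ite_eq', Finset.mem_univ, if_true]
      linarith
    exact_mod_cast h1
  · have : (∑ k, z k) = (∑ k, y k) + e := by
      simp only [hz, Finset.sum_add_distrib, Finset.sum_ite_eq', Finset.mem_univ, if_true]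
    rw [this]
    exact hpar
  · refine hsum.trans ?_
    nlinarith
  · refine le_trans ?_ (Finset.single_le_sum (f := fun k => disp v n z k ^ 2)
      (fun k _ => sq_nonneg _) (Finset.mem_univ (0 : Fin d)))
    have : R ≤ disp v n z 0 := by linarith [hd1.1]
    exact pow_le_pow_left₀ (by linarith) this 2

lemma rpow_little {a b : ℝ} (hab : a < b) (C : ℝ) :
    ∀ᶠ n : ℕ in atTop, C * (n : ℝ) ^ a ≤ (n : ℝ) ^ b := by
  have h3 : Tendsto (fun N : ℕ => (N : ℝ) ^ (b - a)) atTop atTop :=
    (tendsto_rpow_atTop (by linarith)).comp tendsto_natCast_atTop_atTop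
  filter_upwards [h3.eventually_ge_atTop C, eventually_ge_atTop 1] with n hn hn1
  have hNR : (1 : ℝ) ≤ n := by exact_mod_cast hn1
  have e1 : (n : ℝ) ^ b = (n : ℝ) ^ (b - a) * (n : ℝ) ^ a := by
    rw [← Real.rpow_add (by linarith)]; congr 1; ring
  rw [e1]
  exact mul_le_mul_of_nonneg_right hn (by positivity)

lemma exists_z [NeZero d] (v : Fin d → ℝ) (hv : (∑ k, |v k|) < 1) {a : ℝ} (ha : 0 < a)
    (ha1 : a < 1) :
    ∀ᶠ n : ℕ in atTop, ∃ z : Fin d → ℤ, reach n z ∧ K1H53.KD.sq (disp v n z) ≤ (4 * (n : ℝ) ^ a) ^ 2 ∧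
      ((n : ℝ) ^ a) ^ 2 ≤ K1H53.KD.sq (disp v n z) := by
  set δ := 1 - ∑ k, |v k| with hδ
  have hδ0 : 0 < δ := by rw [hδ]; linarith
  have h1 := rpow_little ha1 ((d + 3) / δ)
  have h2 : Tendsto (fun N : ℕ => (N : ℝ) ^ a) atTop atTop :=
    (tendsto_rpow_atTop ha).comp tendsto_natCast_atTop_atTop
  filter_upwards [h1, h2.eventually_ge_atTop (d + 1), eventually_ge_atTop 1] with n hn1 hn2 hn3
  have hd1 : (1 : ℝ) ≤ d := by exact_mod_cast Nat.pos_of_ne_zero (NeZero.ne d)
  set R := (n : ℝ) ^ a with hR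
  have hR1 : 1 ≤ R := by linarith
  refine exists_z0 v n hR1 ?_ ?_
  · nlinarith
  · rw [Real.rpow_one, div_mul_eq_mul_div, div_le_iff₀ hδ0] at hn1
    have : (∑ k, |v k|) = 1 - δ := by rw [hδ]; ring
    rw [this]
    nlinarith

/-- no confinement below the diffusive scale -/
theorem t_zero [NeZero d] (he : IsEnv P w) (b : ℝ) (hZ : ZApi d) : S_zero P w b := by
  intro h v a κ s₀ C₀ hv ha ha1 hκ hκa hs₀ H1 H2
  obtain ⟨f, K, s', C', hK, hs', hC', hPP⟩ := H2 4 (by norm_num)
  have ha0 : 0 < a := by linarith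
  -- eventual inequalities
  have e1 := exists_z v hv ha0 ha1
  have e2 := rpow_little (show 2 * a - 1 < s₀ from hs₀) (2 * K + 1)
  have e3 := (poly_exp d (show 0 < 2 * a - 1 by linarith)).const_mul (4 * |C₀|)
  rw [mul_zero] at e3
  have e4 := (poly_exp 0 (show 0 < s₀ by linarith)).const_mul (2 * |C₀|)
  rw [mul_zero] at e4
  have e5 := (poly_exp 0 hs').const_mul C'
  rw [mul_zero] at e5
  obtain ⟨n, ⟨z, hz1, hz2, hz3⟩, hn2, hn3, hn4, hn5, hn6⟩ := (e1.and (e2.and
    ((e3.eventually_lt_const one_pos).and ((e4.eventually_lt_const (show (0 : ℝ) < 1 / 4 by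
      norm_num)).and ((e5.eventually_lt_const (show (0 : ℝ) < 1 / 4 by norm_num)).and
        (eventually_ge_atTop 2)))))).exists
  have hn1 : 1 ≤ n := by omega
  have hnR : (2 : ℝ) ≤ n := by exact_mod_cast hn6
  have hn0 : (0 : ℝ) < n := by linarith
  set g : Ω → ℝ := fun x => 1 - frProb b h (fld w x) (tube n v ((n : ℝ) ^ κ)) with hg
  have hgm : Measurable g :=
    ((measurable_frProb b h _).comp (measurable_fld he)).const_sub 1
  have hg0 : ∀ x, 0 ≤ g x := fun x => by
    have := frProb_le_one b h (fld w x) (tube n v ((n : ℝ) ^ κ))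
    simp only [hg]; linarith
  have hg1 : ∀ x, g x ≤ 1 := fun x => by
    have := frProb_nonneg b h (fld w x) (tube n v ((n : ℝ) ^ κ))
    simp only [hg]; linarith
  have hgi : Integrable g P := by
    refine Integrable.of_bound hgm.aestronglyMeasurable 1 (Eventually.of_forall fun x => ?_)
    rw [Real.norm_of_nonneg (hg0 x)]
    exact hg1 x
  have hint : ∫ x, g x ∂P ≤ C₀ * Real.exp (-(n : ℝ) ^ s₀) := H1 n hn1
  have markov : ∀ ε : ℝ, ε * P.real {x | ε ≤ g x} ≤ C₀ * Real.exp (-(n : ℝ) ^ s₀) := fun ε =>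
    (mul_meas_ge_le_integral_of_nonneg (Eventually.of_forall hg0) hgi ε).trans hint
  -- constants
  set M := Real.exp (f n + K * (n : ℝ) ^ (2 * a - 1)) with hM
  set c := Real.exp (-(2 * K) * (n : ℝ) ^ (2 * a - 1)) / (2 * (2 * (n : ℝ) + 1) ^ d) with hc
  have hc0 : 0 < c := by rw [hc]; positivity
  set A := PPbad P w b h v n (4 * (n : ℝ) ^ a) (K * (n : ℝ) ^ (2 * a - 1)) (f n) with hA
  have hAp : P.real A ≤ 1 / 4 := by
    refine (hPP n hn1).trans ?_
    rw [pow_zero, one_mul] at hn5
    exact hn5.le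
  have hTp : P.real {x | 1 / 2 ≤ g x} ≤ 1 / 4 := by
    have h1 := markov (1 / 2)
    rw [pow_zero, one_mul] at hn4
    have h2 : C₀ * Real.exp (-(n : ℝ) ^ s₀) ≤ |C₀| * Real.exp (-(n : ℝ) ^ s₀) :=
      mul_le_mul_of_nonneg_right (le_abs_self _) (Real.exp_pos _).le
    linarith
  have hκn : (n : ℝ) ^ κ ≤ (n : ℝ) ^ a :=
    Real.rpow_le_rpow_of_exponent_le (by linarith) hκa.le
  have hκn' : (n : ℝ) ^ κ < (n : ℝ) ^ a :=
    Real.rpow_lt_rpow_of_exponent_lt (by linarith) hκa
  have hna0 : 0 < (n : ℝ) ^ a := by positivity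
  have hzlt : (n : ℝ) ^ κ < Real.sqrt (K1H53.KD.sq (disp v n z)) := by
    refine lt_of_lt_of_le hκn' ?_
    exact Real.le_sqrt_of_sq_le hz3
  -- on the good event
  have good : ∀ x, x ∉ A → g x < 1 / 2 → c ≤ g x := by
    intro x hxA hxg
    have hA' : ∀ y : Fin d → ℤ, reach n y → K1H53.KD.sq (disp v n y) ≤ (4 * (n : ℝ) ^ a) ^ 2 →
        |Real.log (Zp b (fld w x) n y) - (f n - dot h y)| ≤ K * (n : ℝ) ^ (2 * a - 1) := by
      intro y hy1 hy2
      by_contra hcon
      push Not at hcon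
      exact hxA ⟨y, hy1, hy2, hcon⟩
    have hup : Zd b h (fld w x) n ≤ 2 * ((2 * (n : ℝ) + 1) ^ d * M) := by
      refine Zd_upper hZ (R := (n : ℝ) ^ κ) (v := v) (Real.exp_pos _).le ?_ ?_
      · intro y hy1 hy2
        have hy3 : K1H53.KD.sq (disp v n y) ≤ (4 * (n : ℝ) ^ a) ^ 2 := by
          have h0 : 0 ≤ K1H53.KD.sq (disp v n y) := Finset.sum_nonneg fun k _ => sq_nonneg _
          have h1 : K1H53.KD.sq (disp v n y) = (Real.sqrt (K1H53.KD.sq (disp v n y))) ^ 2 := (Real.sq_sqrt h0).symm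
          rw [h1]
          apply pow_le_pow_left₀ (Real.sqrt_nonneg _)
          linarith
        have h1 := (abs_le.1 (hA' y hy1 hy3)).2
        have hp := hZ.pos b (fld w x) n y hy1
        rw [← Real.exp_log hp, ← Real.exp_add, hM]
        apply Real.exp_le_exp.2
        linarith
      · simp only [hg] at hxg
        linarith
    have hlow : Real.exp (f n - K * (n : ℝ) ^ (2 * a - 1)) ≤
        Zp b (fld w x) n z * Real.exp (dot h z) := by
      have h1 := (abs_le.1 (hA' z hz1 hz2)).1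
      have hp := hZ.pos b (fld w x) n z hz1
      rw [← Real.exp_log hp, ← Real.exp_add]
      apply Real.exp_le_exp.2
      linarith
    have h3 := compl_lower (β := b) (h := h) (η := fld w x) hzlt
    refine le_trans ?_ h3
    rw [le_div_iff₀ (Zd_pos b h _ n)]
    refine le_trans ?_ hlow
    calc c * Zd b h (fld w x) n ≤ c * (2 * ((2 * (n : ℝ) + 1) ^ d * M)) :=
          mul_le_mul_of_nonneg_left hup hc0.le
      _ = Real.exp (-(2 * K) * (n : ℝ) ^ (2 * a - 1)) * M := by
          rw [hc]; field_simp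
      _ = Real.exp (f n - K * (n : ℝ) ^ (2 * a - 1)) := by
          rw [hM, ← Real.exp_add]; congr 1; ring
      _ ≤ _ := le_rfl
  -- probabilities
  have hcov : (1 : ℝ) ≤ P.real {x | c ≤ g x} + P.real A + P.real {x | 1 / 2 ≤ g x} := by
    have h1 : (Set.univ : Set Ω) ⊆ ({x | c ≤ g x} ∪ A) ∪ {x | 1 / 2 ≤ g x} := by
      intro x _
      by_cases hxA : x ∈ A
      · exact Or.inl (Or.inr hxA)
      · by_cases hxg : g x < 1 / 2
        · exact Or.inl (Or.inl (good x hxA hxg))
        · exact Or.inr (not_lt.1 hxg)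
    have h2 : P.real (Set.univ : Set Ω) ≤ _ := measureReal_mono h1 (measure_ne_top _ _)
    rw [probReal_univ] at h2
    refine h2.trans ((measureReal_union_le _ _).trans ?_)
    have := measureReal_union_le (μ := P) {x | c ≤ g x} A
    linarith
  have hhalf : 1 / 2 ≤ P.real {x | c ≤ g x} := by linarith
  have hfin : c * (1 / 2) ≤ C₀ * Real.exp (-(n : ℝ) ^ s₀) :=
    (mul_le_mul_of_nonneg_left hhalf hc0.le).trans (markov c)
  -- contradiction
  have hpow : 0 < (2 * (n : ℝ) + 1) ^ d := by positivity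
  have h5 : Real.exp (-(n : ℝ) ^ s₀) ≤ Real.exp (-(2 * K) * (n : ℝ) ^ (2 * a - 1)) *
      Real.exp (-(n : ℝ) ^ (2 * a - 1)) := by
    rw [← Real.exp_add]
    apply Real.exp_le_exp.2
    linarith
  have h6 : c * (1 / 2) ≤ |C₀| * (Real.exp (-(2 * K) * (n : ℝ) ^ (2 * a - 1)) *
      Real.exp (-(n : ℝ) ^ (2 * a - 1))) := by
    refine hfin.trans ?_
    exact mul_le_mul (le_abs_self _) h5 (Real.exp_pos _).le (abs_nonneg _)
  rw [hc, div_mul_eq_mul_div, div_le_iff₀ (by positivity)] at h6
  have hE := Real.exp_pos (-(2 * K) * (n : ℝ) ^ (2 * a - 1))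
  have h7 : Real.exp (-(2 * K) * (n : ℝ) ^ (2 * a - 1)) * 1 ≤
      Real.exp (-(2 * K) * (n : ℝ) ^ (2 * a - 1)) *
      (4 * |C₀| * ((2 * (n : ℝ) + 1) ^ d * Real.exp (-(n : ℝ) ^ (2 * a - 1)))) := by
    linarith
  have h8 := le_of_mul_le_mul_left h7 hE
  linarith

end Pool.Agent.K1H31.KD
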